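import Pool.Agent.H41.SS.Targets

/-!
# GOO: good assignments are everywhere
-/

set_option autoImplicit false

namespace Pool.Agent.H48.SSM

open Finset Pool.Agent.H97.RK Pool.Agent.H97.RL Pool.Agent.H41.SS

private theorem cube_card {n : ℕ} (A : Finset (Fin n)) (y : Fin n → Bool) :
    (univ.filter fun z : Fin n → Bool => ∀ v ∈ A, z v = y v).card = 2 ^ (n - A.card) := by
  have h1 : (univ.filter fun z : Fin n → Bool => ∀ v ∈ A, z v = y v) =
      Fintype.piFinset fun v : Fin n => if v ∈ A then ({y v} : Finset Bool) else univ := by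
    ext z
    rw [mem_filter, Fintype.mem_piFinset]
    constructor
    · rintro ⟨_, h⟩ v
      by_cases hv : v ∈ A
      · rw [if_pos hv, mem_singleton]
        exact h v hv
      · rw [if_neg hv]
        exact mem_univ _
    · intro h
      refine ⟨mem_univ _, fun v hv => ?_⟩
      have h2 := h v
      rw [if_pos hv, mem_singleton] at h2
      exact h2
  rw [h1, Fintype.card_piFinset]
  have h2 : ∀ v : Fin n, (if v ∈ A then ({y v} : Finset Bool) else univ).card =
      if v ∈ A then 1 else 2 := by
    intro v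
    by_cases hv : v ∈ A
    · rw [if_pos hv, if_pos hv, card_singleton]
    · rw [if_neg hv, if_neg hv]
      rfl
  simp only [h2]
  rw [prod_ite, prod_const_one, one_mul, prod_const]
  have h3 : (univ.filter fun v : Fin n => v ∉ A) = Aᶜ := by
    ext v
    simp
  rw [h3, card_compl, Fintype.card_fin]

open Classical in
private theorem main_ineq {n k m : ℕ} (F : Fml n k m) (D d w u : ℕ) (hu : u ≤ n)
    (h : (univ.filter fun z => ¬ Gd F D d w z).card * 2 ^ (u + 1) ≤ 2 ^ n)
    (A : Finset (Fin n)) (y : Fin n → Bool) (hA : A.card ≤ u) :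
    2 ^ n ≤ (univ.filter fun z => Gd F D d w z ∧ ∀ v ∈ A, z v = y v).card * 2 ^ (u + 1) := by
  have h1 : (univ.filter fun z : Fin n → Bool => ∀ v ∈ A, z v = y v) ⊆
      (univ.filter fun z => Gd F D d w z ∧ ∀ v ∈ A, z v = y v) ∪
        (univ.filter fun z => ¬ Gd F D d w z) := by
    intro z hz
    rw [mem_filter] at hz
    rw [mem_union, mem_filter, mem_filter]
    by_cases hg : Gd F D d w z
    · exact Or.inl ⟨mem_univ _, hg, hz.2⟩
    · exact Or.inr ⟨mem_univ _, hg⟩
  have h2 : (univ.filter fun z : Fin n → Bool => ∀ v ∈ A, z v = y v).card ≤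
      (univ.filter fun z => Gd F D d w z ∧ ∀ v ∈ A, z v = y v).card +
        (univ.filter fun z => ¬ Gd F D d w z).card :=
    (card_le_card h1).trans (card_union_le _ _)
  have h3 : (univ.filter fun z : Fin n → Bool => ∀ v ∈ A, z v = y v).card =
      2 ^ (n - A.card) := by
    rw [← cube_card A y]
  rw [h3] at h2
  have h4 : 2 ^ (n - u) ≤ 2 ^ (n - A.card) := Nat.pow_le_pow_right (by norm_num) (by omega)
  have h5 : 2 ^ (n - u) * 2 ^ (u + 1) = 2 * 2 ^ n := by
    rw [← pow_add, ← pow_succ']
    congr 1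
    omega
  have h6 := Nat.mul_le_mul_right (2 ^ (u + 1)) (h4.trans h2)
  rw [h5, add_mul] at h6
  omega

theorem pf_GOO : T_GOO := by
  classical
  intro n k m F D d w u hu h
  refine ⟨?_, fun A y hA => main_ineq F D d w u hu h A y hA⟩
  intro A y hA
  have h1 := main_ineq F D d w u hu h A y hA
  have h2 : 0 < 2 ^ n := Nat.pos_of_ne_zero (by positivity)
  by_contra hc
  push Not at hc
  have h3 : (univ.filter fun z => Gd F D d w z ∧ ∀ v ∈ A, z v = y v) = ∅ := by
    refine Finset.filter_eq_empty_iff.2 fun z _ hz => ?_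
    obtain ⟨v, hv, hne⟩ := hc z hz.1
    exact hne (hz.2 v hv)
  rw [h3, card_empty, zero_mul] at h1
  omega

end Pool.Agent.H48.SSM
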