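import Pool.Agent.H41.SS.Targets
import Pool.Agent.H54.RKS.PBN

/-!
# PEX: expansion of random formulas
-/

set_option autoImplicit false

namespace Pool.Agent.H48.SSM

open Finset Pool.Agent.H97.RK Pool.Agent.H97.RL Pool.Agent.H41.SS

/-- all variables of the clause are in `V` -/
private def pV {n k : ℕ} (V : Finset (Fin n)) (g : Fin k → Fin n × Bool) : Prop :=
  ∀ i, (g i).1 ∈ V

open Classical in
private theorem pV_card (n k s : ℕ) (hn : 1 ≤ n) (V : Finset (Fin n)) (hV : V.card = 2 * s) :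
    ((univ.filter (pV (k := k) V)).card : ℝ) = (2 * s / n : ℝ) ^ k * (2 * n) ^ k := by
  have hn' : (0 : ℝ) < n := by exact_mod_cast hn
  have h1 : (univ.filter (pV (k := k) V)) =
      Fintype.piFinset fun _ : Fin k => V ×ˢ (univ : Finset Bool) := by
    ext g
    rw [mem_filter, Fintype.mem_piFinset]
    constructor
    · rintro ⟨_, h⟩ i
      exact mem_product.mpr ⟨h i, mem_univ _⟩
    · intro h
      exact ⟨mem_univ _, fun i => (mem_product.mp (h i)).1⟩
  rw [h1, Fintype.card_piFinset, prod_const, card_product, hV, card_univ, card_univ,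
    Fintype.card_bool, Fintype.card_fin, ← mul_pow]
  push_cast
  congr 1
  field_simp

open Classical in
private theorem not_Ex {n k m D : ℕ} (F : Fml n k m) (hD : 2 * D ≤ n) (h : ¬ Ex F D) :
    ∃ s ∈ Icc 1 D, ∃ V ∈ powersetCard (2 * s) (univ : Finset (Fin n)),
      s ≤ (univ.filter fun c => pV V (F c)).card := by
  unfold Ex at h
  push Not at h
  obtain ⟨S, h1, h2⟩ := h
  have h3 : 1 ≤ S.card := by
    by_contra h0
    have : S.card = 0 := by omega
    omega
  obtain ⟨V, hV, hc⟩ := exists_superset_card_eq h2.le (by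
    rw [Fintype.card_fin]
    omega)
  refine ⟨S.card, mem_Icc.mpr ⟨h3, h1⟩, V, mem_powersetCard.mpr ⟨subset_univ _, hc⟩, ?_⟩
  refine card_le_card fun c hc' => ?_
  rw [mem_filter]
  refine ⟨mem_univ _, fun i => hV ?_⟩
  exact mem_biUnion.mpr ⟨c, hc', mem_image.mpr ⟨i, mem_univ _, rfl⟩⟩

theorem pf_PEX : T_PEX := by
  classical
  intro n k m D hn hD
  have hn' : (0 : ℝ) < n := by exact_mod_cast hn
  have hN : (0 : ℝ) < (2 * n) ^ k := by positivity
  set ct : ℕ → Finset (Fin n) → Finset (Fml n k m) := fun s U =>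
    univ.filter fun F : Fml n k m => s ≤ (univ.filter fun c => pV U (F c)).card with hct
  have h1 : (univ.filter fun F : Fml n k m => ¬ Ex F D) ⊆
      (Icc 1 D).biUnion fun s => (powersetCard (2 * s) (univ : Finset (Fin n))).biUnion fun U =>
        ct s U := by
    intro F hF
    rw [mem_filter] at hF
    obtain ⟨s, hs, V, hV, h2⟩ := not_Ex F hD hF.2
    rw [mem_biUnion]
    refine ⟨s, hs, ?_⟩
    rw [mem_biUnion]
    refine ⟨V, hV, ?_⟩
    rw [hct, mem_filter]
    exact ⟨mem_univ _, h2⟩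
  have h2 : ∀ s ∈ Icc 1 D, ∀ U ∈ powersetCard (2 * s) (univ : Finset (Fin n)),
      ((ct s U).card : ℝ) ≤ m.choose s * (2 * s / n : ℝ) ^ (k * s) *
        ((2 * n) ^ k : ℝ) ^ m := by
    intro s _ U hU
    have hc := (mem_powersetCard.mp hU).2
    have h3 := Pool.Agent.H54.RKS.pf_PBN n k m s (pV U)
    have h4 := pV_card n k s hn U hc
    have h5 : ((ct s U).card : ℝ) * ((2 * n) ^ k : ℝ) ^ s ≤
        m.choose s * (2 * s / n : ℝ) ^ (k * s) * ((2 * n) ^ k : ℝ) ^ m *
          ((2 * n) ^ k : ℝ) ^ s := by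
      refine le_trans (le_of_eq ?_) (h3.trans (le_of_eq ?_))
      · rfl
      · rw [h4, mul_pow, pow_mul]
        ring
    exact le_of_mul_le_mul_right h5 (by positivity)
  calc ((univ.filter fun F : Fml n k m => ¬ Ex F D).card : ℝ)
      ≤ (((Icc 1 D).biUnion fun s => (powersetCard (2 * s) (univ : Finset (Fin n))).biUnion
        fun U => ct s U).card : ℝ) := by exact_mod_cast card_le_card h1
    _ ≤ ∑ s ∈ Icc 1 D, ∑ U ∈ powersetCard (2 * s) (univ : Finset (Fin n)),
          ((ct s U).card : ℝ) := by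
        have h3 : (((Icc 1 D).biUnion fun s =>
            (powersetCard (2 * s) (univ : Finset (Fin n))).biUnion fun U => ct s U).card) ≤
            ∑ s ∈ Icc 1 D, ∑ U ∈ powersetCard (2 * s) (univ : Finset (Fin n)), (ct s U).card :=
          card_biUnion_le.trans (sum_le_sum fun s _ => card_biUnion_le)
        exact_mod_cast h3
    _ ≤ ∑ s ∈ Icc 1 D, ∑ U ∈ powersetCard (2 * s) (univ : Finset (Fin n)),
        (m.choose s * (2 * s / n : ℝ) ^ (k * s) * ((2 * n) ^ k : ℝ) ^ m) :=
        sum_le_sum fun s hs' => sum_le_sum fun U hU => h2 s hs' U hU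
    _ = _ := by
        rw [sum_mul]
        refine sum_congr rfl fun s _ => ?_
        rw [sum_const, card_powersetCard, card_univ, Fintype.card_fin, nsmul_eq_mul]
        ring

end Pool.Agent.H48.SSM
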